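import Mathlib
import Pool.Agent.Results.MP_95a8e7_lc.CohenCovering
import Pool.Agent.Results.MP_820435_lc.NeverProvableAbove
import Pool.Agent.Results.MP_820435_lc.CardinalIntervals
import Pool.Agent.W684.FM.Ambient
import Pool.Agent.Helper292.ForceCH
import Pool.Agent.H631R2.Cohen

set_option autoImplicit false

/-!
# MP_95a8e7_lc: property (P) of `ω₁ ^ (ω + 2)`, and of every limit ordinal between it and `ω₂`, is
independent of ZFC
-/

namespace Pool.Agent.Results.MP_95a8e7_lc.Independence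

open Cardinal Ordinal
open Pool.Agent.Results.MP_95a8e7_lc.CohenCovering (PropP)

/-- Under the continuum hypothesis no `α` with `ω₁ ^ (ω + 2) ≤ α < ω₂` has property (P). -/
theorem not_propP (hCH : (ℵ₁ : Cardinal.{0}) = Cardinal.continuum) {α : Ordinal.{0}}
    (h1 : ω_ 1 ^ (ω + 2) ≤ α) (h2 : α < ω_ 2) : ¬ PropP α := by
  intro hP
  have h : (2 : Cardinal.{0}) ^ ℵ₀ = Order.succ ℵ₀ := by
    rw [Cardinal.two_power_aleph0, ← hCH, Cardinal.succ_aleph0]
  obtain ⟨G, h3, h4⟩ := MP_820435_lc.NeverProvableAbove.main2 h α h2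
  rcases hP G with hp | ⟨S, hS, hS'⟩
  · exact h3 hp
  · have h5 := h4 S (by
      intro x hx y hy hxy
      exact hS hx hy (G.ne_of_adj hxy) hxy)
    rw [hS'] at h5
    exact absurd h5 (not_lt.2 h1)

theorem card_bound : ((ω_ 1 : Ordinal.{0}) ^ (ω + 2 : Ordinal.{0})).card ≤ ℵ₁ := by
  refine (Ordinal.card_opow_le _ _).trans ?_
  refine max_le (Cardinal.aleph0_le_aleph 1) (max_le ?_ ?_)
  · rw [Ordinal.card_omega]
  · rw [Ordinal.card_add, Ordinal.card_omega0]
    refine Cardinal.add_le_of_le (Cardinal.aleph0_le_aleph 1) (Cardinal.aleph0_le_aleph 1) ?_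
    rw [show (2 : Ordinal.{0}) = ((2 : ℕ) : Ordinal.{0}) by norm_cast, Ordinal.card_nat]
    exact (Cardinal.natCast_lt_aleph0 (n := 2)).le.trans (Cardinal.aleph0_le_aleph 1)

/-- Every limit ordinal below `ω₁ ^ (ω + 2)` has property (P). -/
theorem propP_of_lt {α : Ordinal.{0}} (hα : Order.IsSuccLimit α) (h1 : α < ω_ 1 ^ (ω + 2)) :
    PropP α := by
  intro G
  refine (MP_820435_lc.CardinalIntervals.result α hα ?_ G).symm
  intro γ hγ κ hκ hlt
  have hle : ω ^ γ ≤ α := by
    obtain ⟨β, δ, h3, -⟩ := Pool.Agent.TH764.OG.cnf_split α γ hγ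
    rw [h3]
    exact le_trans le_add_self le_self_add
  have hκ1 : κ = ℵ₁ := by
    refine le_antisymm ?_ ?_
    · rw [← hκ]
      exact (Ordinal.card_le_card (hle.trans h1.le)).trans card_bound
    · rw [← Cardinal.succ_aleph0, Order.succ_le_iff]
      exact hlt
  refine ⟨ℵ₀, le_rfl, hlt, ?_⟩
  rw [hκ1, Cardinal.ord_aleph, Cardinal.ord_aleph0]
  exact hle.trans_lt h1

/-- Martin's axiom for `κ` dense sets implies property (P) for all limit ordinals of cardinality
at most `κ`. -/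
theorem propP_of_ma {κ : Cardinal.{0}} (hMA : Pool.Agent.W684.FM.MartinAxiomCard κ)
    {α : Ordinal.{0}} (hα : Order.IsSuccLimit α) (hκ : α.card ≤ κ) : PropP α := by
  classical
  refine CohenCovering.aux α hα ?_
  intro ι U hι ho hd
  have hinf : ℵ₀ ≤ κ := by
    refine le_trans ?_ hκ
    rw [← Ordinal.card_omega0]
    exact Ordinal.card_le_card (Ordinal.omega0_le_of_isSuccLimit hα)
  let C := Pool.Agent.H631R2.Cond α.ToType
  let bas : C → Set (α.ToType → Bool) := fun p => {c | ∀ x b, (x, b) ∈ p.s → c x = b}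
  let D : ι → Set C := fun i => {p | bas p ⊆ U i}
  let E : α.ToType → Set C := fun x => {p | ∃ b, (x, b) ∈ p.s}
  have hbase : ∀ (c : α.ToType → Bool) (F : Finset α.ToType), ∃ q : C,
      (∀ x b, (x, b) ∈ q.s ↔ x ∈ F ∧ b = c x) := by
    intro c F
    refine ⟨⟨F.image fun x => (x, c x), ?_⟩, ?_⟩
    · intro x hx hx'
      obtain ⟨y, -, hy⟩ := Finset.mem_image.1 hx
      obtain ⟨z, -, hz⟩ := Finset.mem_image.1 hx'
      obtain ⟨rfl, h2⟩ := Prod.mk.inj hy
      obtain ⟨rfl, h4⟩ := Prod.mk.inj hz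
      rw [h2] at h4
      exact Bool.noConfusion h4
    · intro x b
      constructor
      · intro h
        obtain ⟨y, hy, hyx⟩ := Finset.mem_image.1 h
        obtain ⟨rfl, rfl⟩ := Prod.mk.inj hyx
        exact ⟨hy, rfl⟩
      · rintro ⟨h1, rfl⟩
        exact Finset.mem_image.2 ⟨x, h1, rfl⟩
  have hext : ∀ (p : C) (c : α.ToType → Bool), c ∈ bas p → ∀ F : Finset α.ToType,
      ∃ q : C, q ≤ p ∧ c ∈ bas q ∧ ∀ x ∈ F, (x, c x) ∈ q.s := by
    intro p c hc F
    obtain ⟨q, hq⟩ := hbase c (F ∪ p.s.image Prod.fst)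
    refine ⟨q, ?_, ?_, ?_⟩
    · rintro ⟨x, b⟩ hx
      rw [hq]
      exact ⟨Finset.mem_union_right _ (Finset.mem_image.2 ⟨_, hx, rfl⟩), (hc x b hx).symm⟩
    · intro x b hx
      exact ((hq x b).1 hx).2.symm
    · intro x hx
      rw [hq]
      exact ⟨Finset.mem_union_left _ hx, rfl⟩
  have hne : ∀ p : C, ∃ c, c ∈ bas p := by
    intro p
    refine ⟨fun x => decide ((x, true) ∈ p.s), ?_⟩
    intro x b hx
    cases b
    · simp only [decide_eq_false_iff_not]
      intro h
      exact p.fn x h hx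
    · simp only [decide_eq_true_eq]
      exact hx
  have hopen : ∀ p : C, IsOpen (bas p) := by
    intro p
    have h1 : bas p = ⋂ y ∈ p.s, {c : α.ToType → Bool | c y.1 = y.2} := by
      ext c
      simp only [Set.mem_iInter]
      exact ⟨fun h y hy => h y.1 y.2 hy, fun h x b hx => h (x, b) hx⟩
    rw [h1]
    refine isOpen_biInter_finset fun y _ => ?_
    have h2 : Continuous (fun c : α.ToType → Bool => c y.1) := continuous_apply y.1
    exact (isOpen_discrete ({y.2} : Set Bool)).preimage h2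
  have hD : ∀ i, ∀ p : C, ∃ q ∈ D i, q ≤ p := by
    intro i p
    obtain ⟨c, hcp, hcU⟩ := (hd i).inter_open_nonempty (bas p) (hopen p) (hne p)
    obtain ⟨F, u, hu, hsub⟩ := isOpen_pi_iff.1 (ho i) c hcU
    obtain ⟨q, hqp, -, hq⟩ := hext p c hcp F
    refine ⟨q, ?_, hqp⟩
    intro d hd'
    apply hsub
    intro x hx
    rw [hd' x (c x) (hq x hx)]
    exact (hu x hx).2
  have hE : ∀ x, ∀ p : C, ∃ q ∈ E x, q ≤ p := by
    intro x p
    obtain ⟨c, hc⟩ := hne p
    obtain ⟨q, hqp, -, hq⟩ := hext p c hc {x}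
    exact ⟨q, ⟨c x, hq x (Finset.mem_singleton_self x)⟩, hqp⟩
  have : Nonempty C := ⟨⟨∅, by simp⟩⟩
  obtain ⟨G, -, -, hG3, hG4⟩ := hMA C (fun A hA => Cardinal.le_aleph0_iff_set_countable.1
    (Pool.Agent.H631R2.Cond.ccc A hA)) (Set.range D ∪ Set.range E) (by
      refine (Cardinal.mk_union_le _ _).trans ?_
      refine Cardinal.add_le_of_le hinf ?_ ?_
      · exact Cardinal.mk_range_le.trans (hι.trans hκ)
      · refine Cardinal.mk_range_le.trans ?_
        rw [Cardinal.mk_toType]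
        exact hκ) (by
      rintro S (⟨i, rfl⟩ | ⟨x, rfl⟩)
      · exact hD i
      · exact hE x)
  have hval : ∀ x, ∃ p ∈ G, ∃ b, (x, b) ∈ p.s := by
    intro x
    obtain ⟨p, hp, hpE⟩ := hG4 (E x) (Or.inr ⟨x, rfl⟩)
    exact ⟨p, hp, hpE⟩
  choose g hg c hc using hval
  have hcG : ∀ p ∈ G, c ∈ bas p := by
    intro p hp x b hx
    obtain ⟨r, -, hr1, hr2⟩ := hG3 p hp (g x) (hg x)
    exact Pool.Agent.H631R2.Cond.unique (hr2 (hc x)) (hr1 hx)
  refine ⟨c, Set.mem_iInter.2 fun i => ?_⟩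
  obtain ⟨p, hp, hpD⟩ := hG4 (D i) (Or.inl ⟨i, rfl⟩)
  exact hpD (hcG p hp)

/-- (1) Some notion of forcing forces that `ω₁` is preserved and that the continuum hypothesis
holds. (2) Under the continuum hypothesis a limit ordinal `α < ω₂` has property (P) if and only if
`α < ω₁ ^ (ω + 2)`. (3) For every infinite set `X` some notion of forcing forces that all cardinals
are preserved and that `MartinFor X` holds, which (4) is Martin's axiom for `#X` dense sets.
(5) Martin's axiom for `κ` dense sets implies that all limit ordinals of cardinality at most `κ`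
have property (P). -/
theorem result :
    (∃ (P : Type) (_ : Preorder P), Nonempty P ∧ ∀ p : P,
      p ∈ Pool.Agent.Helper292.ForceCH.OmegaOnePreserved P ∧
      p ∈ Pool.Agent.Helper292.ForceCH.CHHolds P) ∧
    ((ℵ₁ : Cardinal.{0}) = Cardinal.continuum → ∀ α : Ordinal.{0}, Order.IsSuccLimit α →
      α < ω_ 2 → (PropP α ↔ α < ω_ 1 ^ (ω + 2))) ∧
    (∀ (X : Type) [Infinite X],
      (∃ (P : Type) (_ : Preorder P), Nonempty P ∧ ∀ p : P,
        p ∈ Pool.Agent.Helper669.Forcing.CardinalsPreserved.{0, 0} P ∧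
        p ∈ Pool.Agent.W684.FM.OmegaOnePreserved P ∧
        p ∈ Pool.Agent.W684.FM.MartinHolds P X) ∧
      (Pool.Agent.W684.FM.MartinFor X ↔ Pool.Agent.W684.FM.MartinAxiomCard #X)) ∧
    ∀ κ : Cardinal.{0}, Pool.Agent.W684.FM.MartinAxiomCard κ →
      ∀ α : Ordinal.{0}, Order.IsSuccLimit α → α.card ≤ κ → PropP α := by
  refine ⟨?_, ?_, ?_, fun κ h α hα hκ => propP_of_ma h hα hκ⟩
  · obtain ⟨P, i, h1, h2⟩ := Pool.Agent.Helper292.ForceCH.exists_forcing
    exact ⟨P, i, h1, fun p => ⟨(h2 p).1, (h2 p).2.2⟩⟩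
  · intro hCH α hα h2
    constructor
    · intro hP
      by_contra h
      exact not_propP hCH (not_lt.1 h) h2 hP
    · exact propP_of_lt hα
  · intro X _
    refine ⟨?_, Pool.Agent.W684.FM.martinFor_iff⟩
    obtain ⟨P, i, h1, h2⟩ := Pool.Agent.W684.FM.exists_forcing X
    exact ⟨P, i, h1, h2⟩

end Pool.Agent.Results.MP_95a8e7_lc.Independence
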